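import Pool.Agent.X222.LR.Der

/-!
# The linear relations between the periods of the adjoint object
-/

set_option autoImplicit false
set_option linter.unusedSectionVars false

open Matrix MvPolynomial

namespace Pool.Agent.X222.LR

open Pool.Agent.TH127.PT Pool.Agent.TH119.DR Pool.Agent.Y123.ST

variable {N : Type} [Fintype N] [DecidableEq N]

/-- For all `w` over `K` in the Lie algebra of `P` on the de Rham side, all `K`-linear relations between `1` and the entries
of `c w c⁻¹` hold on `P`. -/
def AdRel (K : Subfield ℂ) (P : Set (Matrix N N ℂ)) (c : Matrix N N ℂ) : Prop :=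
  ∀ w : Matrix N N ℂ, fl w ∈ RR P → (∀ i j, w i j ∈ K) → ∀ u : N × N → ℂ, (∀ b, u b ∈ K) → ∀ a ∈ K,
    ∑ b, u b * fl (c * w * c⁻¹) b = a → ∀ x ∈ P, ∑ b, u b * fl (x * w * x⁻¹) b = a

variable {K : Subfield ℂ} {T P : Set (Matrix N N ℂ)} {c : Matrix N N ℂ}

theorem RR_mono (hP : IsSubtorsor K P) (hTP : T ⊆ P) (hc : c ∈ T) {w : N × N → ℂ} (hw : w ∈ RR T) : w ∈ RR P := by
  intro Q hQ x hx
  have h1 : Van T (cp (ml (x * c⁻¹)) Q) := fun t ht => van_left hP hQ (hTP hc) hx t (hTP ht)
  have h2 := hw _ h1 c hc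
  rw [dd_cp, ml_fl, ml_fl, Matrix.mul_assoc, inv_mul' hP (hTP hc), Matrix.mul_one, ← Matrix.mul_assoc (x * c⁻¹),
    Matrix.mul_assoc x, inv_mul' hP (hTP hc), Matrix.mul_one] at h2
  exact h2

/-- the annihilator of the Lie algebra of `T` -/
def An (T : Set (Matrix N N ℂ)) : Submodule ℂ (N × N → ℂ) where
  carrier := {u | ∀ a ∈ LL T, ∑ b, u b * a b = 0}
  zero_mem' := by intro a _; simp
  add_mem' := by
    intro u v hu hv a ha
    simp only [Pi.add_apply, add_mul, Finset.sum_add_distrib]
    rw [hu a ha, hv a ha, add_zero]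
  smul_mem' := by
    intro z u hu a ha
    simp only [Pi.smul_apply, smul_eq_mul, mul_assoc, ← Finset.mul_sum]
    rw [hu a ha, mul_zero]

theorem An_def (hT : IsSubtorsor K T) : DefOver K (An T) := by
  refine Pool.Agent.TH119.MX.defOver_of_aut (An T) fun σ hσ u hu a ha => ?_
  have h1 := hu _ (LL_aut hT σ.symm (symm_fix hσ) a ha)
  have h2 := congrArg σ h1
  rw [map_zero, map_sum] at h2
  rw [← h2]
  refine Finset.sum_congr rfl fun b _ => ?_
  rw [map_mul]
  simp

/-- a linear functional in coordinates -/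
theorem fun_coord (f : (N × N → ℂ) →ₗ[ℂ] ℂ) (a : N × N → ℂ) : f a = ∑ b, f (Pi.single b 1) * a b := by
  conv_lhs => rw [LinearMap.pi_apply_eq_sum_univ f a]
  refine Finset.sum_congr rfl fun b _ => ?_
  have h : (fun j => if b = j then (1 : ℂ) else 0) = Pi.single b 1 := by
    funext j
    simp [Pi.single_apply, eq_comm]
  rw [h, smul_eq_mul, mul_comm]

theorem mem_of_An {a : N × N → ℂ} (h : ∀ u ∈ An T, ∑ b, u b * a b = 0) : a ∈ LL T := by
  by_contra hcon
  obtain ⟨f, hf1, hf2⟩ := Submodule.exists_le_ker_of_notMem hcon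
  apply hf1
  rw [fun_coord f]
  refine h (fun b => f (Pi.single b 1)) fun a ha => ?_
  rw [← fun_coord f]
  exact hf2 ha

/-- a relation which holds over `K` -/
theorem mem_LL_of {a : N × N → ℂ} (hT : IsSubtorsor K T) (h : ∀ u ∈ An T, (∀ b, u b ∈ K) → ∑ b, u b * a b = 0) :
    a ∈ LL T := by
  apply mem_of_An
  intro u hu
  have h3 : u ∈ Submodule.span ℂ {u : N × N → ℂ | u ∈ An T ∧ ∀ a, u a ∈ K} := An_def hT hu
  clear hu
  induction h3 using Submodule.span_induction with
  | mem u hu => exact h u hu.1 hu.2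
  | zero => simp
  | add u v _ _ hu hv =>
    simp only [Pi.add_apply, add_mul, Finset.sum_add_distrib]
    rw [hu, hv, add_zero]
  | smul z u _ hu =>
    simp only [Pi.smul_apply, smul_eq_mul, mul_assoc z, ← Finset.mul_sum]
    rw [hu, mul_zero]

theorem conj_RL (hT : IsSubtorsor K T) (hP : IsSubtorsor K P) (hTP : T ⊆ P) (hc : c ∈ T) (hl : AdRel K P c)
    {x w : Matrix N N ℂ} (hx : x ∈ P) (hw : fl w ∈ RR T) : fl (x * w * x⁻¹) ∈ LL T := by
  have key : ∀ v : N × N → ℂ, v ∈ RR T → fl (x * um v * x⁻¹) ∈ LL T := by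
    intro v hv
    have h1 : v ∈ Submodule.span ℂ {w : N × N → ℂ | w ∈ RR T ∧ ∀ a, w a ∈ K} := RR_def hT hv
    clear hv
    induction h1 using Submodule.span_induction with
    | mem w hw =>
      refine mem_LL_of hT fun u hu huK => ?_
      refine hl (um w) ?_ (fun i j => hw.2 (i, j)) u huK 0 K.zero_mem ?_ x hx
      · rw [fl_um]
        exact RR_mono hP hTP hc hw.1
      · exact hu _ (conj_mem' hT hc (by rw [fl_um]; exact hw.1))
    | zero =>
      rw [um_zero, Matrix.mul_zero, Matrix.zero_mul, fl_zero]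
      exact Submodule.zero_mem _
    | add v w _ _ hv hw =>
      rw [um_add, Matrix.mul_add, Matrix.add_mul, fl_add]
      exact Submodule.add_mem _ hv hw
    | smul z v _ hv =>
      rw [um_smul, Matrix.mul_smul, Matrix.smul_mul, fl_smul]
      exact Submodule.smul_mem _ _ hv
  have h2 := key (fl w) hw
  rw [um_fl] at h2
  exact h2

/-- the polynomial `∑ u_b (X v adj X)_b` -/
noncomputable def QQ (u : N × N → ℂ) (v : Matrix N N ℂ) : MvPolynomial (N × N) ℂ :=
  ∑ b, C (u b) * (mvPolynomialX N N ℂ * v.map C * (mvPolynomialX N N ℂ).adjugate :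
    Matrix N N (MvPolynomial (N × N) ℂ)) b.1 b.2

theorem eval_QQ (u : N × N → ℂ) (v x : Matrix N N ℂ) :
    eval (fl x) (QQ u v) = ∑ b, u b * fl (x * v * x.adjugate) b := by
  unfold QQ
  rw [map_sum]
  refine Finset.sum_congr rfl fun b _ => ?_
  rw [map_mul, eval_C]
  congr 1
  have h1 : (mvPolynomialX N N ℂ).map (eval (fl x)) = x := by
    ext i j
    simp [mvPolynomialX, fl]
  have h2 : (v.map (C : ℂ → MvPolynomial (N × N) ℂ)).map (eval (fl x)) = v := by
    ext i j
    simp
  have h3 : (mvPolynomialX N N ℂ * v.map C * (mvPolynomialX N N ℂ).adjugate).map (eval (fl x)) =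
      x * v * x.adjugate := by
    rw [Matrix.map_mul, Matrix.map_mul, h1, h2]
    congr 1
    have h4 := (eval (fl x)).map_adjugate (mvPolynomialX N N ℂ)
    rw [RingHom.mapMatrix_apply, RingHom.mapMatrix_apply, h1] at h4
    exact h4
  exact congrFun (congrFun h3 b.1) b.2

theorem adj_inv {x : Matrix N N ℂ} (hx : x * x⁻¹ = 1) : x.adjugate = x.det • x⁻¹ := by
  have h1 : x.adjugate * x = x.det • 1 := Matrix.adjugate_mul x
  calc x.adjugate = x.adjugate * (x * x⁻¹) := by rw [hx, Matrix.mul_one]
    _ = x.det • x⁻¹ := by rw [← Matrix.mul_assoc, h1, Matrix.smul_mul, Matrix.one_mul]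

theorem dd_line (Q : MvPolynomial (N × N) ℂ) (y z : N × N → ℂ) :
    HasDerivAt (fun s : ℂ => eval (fun k => y k + s * z k) Q) (dd Q y z) 0 := by
  set G := aeval (fun k => Polynomial.C (y k) + Polynomial.X * Polynomial.C (z k)) Q with hG
  have h1 : ∀ s, Polynomial.eval s G = eval (fun k => y k + s * z k) Q := fun s => eval_aeval' y z Q s
  have h2 : (Polynomial.derivative G).eval 0 = dd Q y z := by
    rw [hG, deriv_aeval, Polynomial.eval_finsetSum]
    unfold dd
    refine Finset.sum_congr rfl fun b _ => ?_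
    rw [Polynomial.eval_mul, eval_aeval']
    congr 1
    · congr 2
      funext k
      simp
    · simp
  rw [← h2]
  have h3 := Polynomial.hasDerivAt G 0
  refine h3.congr_of_eventuallyEq (Filter.Eventually.of_forall fun s => (h1 s).symm)

/-- **The Lie algebra of `T` is an ideal in the Lie algebra of `P`.** -/
theorem br (hT : IsSubtorsor K T) (hP : IsSubtorsor K P) (hTP : T ⊆ P) (hc : c ∈ T) (hl : AdRel K P c)
    {η v : Matrix N N ℂ} (hη : fl η ∈ LL P) (hv : fl v ∈ LL T) : fl (η * v - v * η) ∈ LL T := by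
  by_contra hcon
  obtain ⟨f, hf1, hf2⟩ := Submodule.exists_le_ker_of_notMem hcon
  have hcc : c * c⁻¹ = 1 := mul_inv' hT hc
  have hcc' : c⁻¹ * c = 1 := inv_mul' hT hc
  set v' := c⁻¹ * v * c with hv'
  have hv'R : fl v' ∈ RR T := conj_mem hT hc hv
  set u : N × N → ℂ := fun b => f (Pi.single b 1) with hu
  have hker : ∀ w : Matrix N N ℂ, fl w ∈ LL T → ∑ b, u b * fl w b = 0 := by
    intro w hw
    rw [← fun_coord f]
    exact hf2 hw
  have hVan : Van P (QQ u v') := by
    intro x hx
    rw [eval_QQ, adj_inv (mul_inv' hP hx), Matrix.mul_smul, fl_smul]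
    have h1 := hker _ (conj_RL hT hP hTP hc hl hx hv'R)
    have h2 : ∀ b, u b * (x.det • fl (x * v' * x⁻¹)) b = x.det * (u b * fl (x * v' * x⁻¹) b) := by
      intro b
      rw [Pi.smul_apply, smul_eq_mul]
      ring
    rw [Finset.sum_congr rfl fun b _ => h2 b, ← Finset.mul_sum, h1, mul_zero]
  have h0 := hη _ hVan c (hTP hc)
  rw [um_fl] at h0
  -- the derivative
  have hd := dd_line (QQ u v') (fl c) (fl (η * c))
  rw [h0] at hd
  have hval : ∀ s : ℂ, eval (fun k => fl c k + s * fl (η * c) k) (QQ u v') =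
      s * (c.det * ∑ b, u b * fl ((η * v - v * η) * (1 + s • η).adjugate) b) := by
    intro s
    have h1 : (fun k => fl c k + s * fl (η * c) k) = fl ((1 + s • η) * c) := by
      funext k
      rw [Matrix.add_mul, Matrix.one_mul, Matrix.smul_mul]
      rfl
    rw [h1, eval_QQ, Matrix.adjugate_mul_distrib]
    have h2 : (1 + s • η) * c * v' * (c.adjugate * (1 + s • η).adjugate) =
        c.det • ((1 + s • η).det • v + s • ((η * v - v * η) * (1 + s • η).adjugate)) := by
      have h3 : c * v' * c.adjugate = c.det • v := by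
        rw [adj_inv hcc, Matrix.mul_smul, hv']
        congr 1
        calc c * (c⁻¹ * v * c) * c⁻¹ = (c * c⁻¹) * v * (c * c⁻¹) := by simp only [Matrix.mul_assoc]
          _ = v := by rw [hcc, Matrix.one_mul, Matrix.mul_one]
      have h4 : (1 + s • η) * c * v' * (c.adjugate * (1 + s • η).adjugate) =
          (1 + s • η) * (c * v' * c.adjugate) * (1 + s • η).adjugate := by simp only [Matrix.mul_assoc]
      have h5 : (1 + s • η) * v = v * (1 + s • η) + s • (η * v - v * η) := by
        rw [Matrix.add_mul, Matrix.mul_add, Matrix.one_mul, Matrix.mul_one, Matrix.smul_mul, Matrix.mul_smul, smul_sub]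
        abel
      rw [h4, h3, Matrix.mul_smul, Matrix.smul_mul, h5, Matrix.add_mul, Matrix.mul_assoc, Matrix.mul_adjugate,
        Matrix.mul_smul, Matrix.mul_one, Matrix.smul_mul]
    rw [h2]
    have h6 : ∀ b, u b * fl (c.det • ((1 + s • η).det • v + s • ((η * v - v * η) * (1 + s • η).adjugate))) b =
        c.det * (1 + s • η).det * (u b * fl v b) +
          s * (c.det * (u b * fl ((η * v - v * η) * (1 + s • η).adjugate) b)) := by
      intro b
      rw [fl_smul, fl_add, fl_smul, fl_smul]
      simp only [Pi.smul_apply, Pi.add_apply, smul_eq_mul]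
      ring
    rw [Finset.sum_congr rfl fun b _ => h6 b, Finset.sum_add_distrib, ← Finset.mul_sum, hker v hv, mul_zero, zero_add,
      ← Finset.mul_sum, ← Finset.mul_sum]
  set r : ℂ → ℂ := fun s => c.det * ∑ b, u b * fl ((η * v - v * η) * (1 + s • η).adjugate) b with hr
  have hcont : Continuous r := by
    rw [hr]
    refine continuous_const.mul (continuous_finsetSum _ fun b _ => continuous_const.mul ?_)
    have h1 : Continuous fun s : ℂ => (η * v - v * η) * (1 + s • η).adjugate := by
      refine Continuous.matrix_mul continuous_const ?_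
      refine Continuous.matrix_adjugate ?_
      exact continuous_const.add (continuous_id.smul continuous_const)
    exact (h1.matrix_elem b.1 b.2)
  have hd2 : HasDerivAt (fun s : ℂ => s * r s) (r 0) 0 := by
    rw [hasDerivAt_iff_tendsto_slope]
    have h1 : Filter.Tendsto r (nhdsWithin 0 {0}ᶜ) (nhds (r 0)) :=
      (hcont.tendsto 0).mono_left nhdsWithin_le_nhds
    refine h1.congr' ?_
    filter_upwards [self_mem_nhdsWithin] with s hs
    have hs' : s ≠ 0 := hs
    rw [slope_def_field]
    field_simp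
    simp
  have hd3 : HasDerivAt (fun s : ℂ => s * r s) 0 0 := by
    exact hd.congr_of_eventuallyEq (Filter.Eventually.of_forall fun s => (hval s).symm)
  have h7 : r 0 = 0 := hd2.unique hd3
  have h8 : r 0 = c.det * f (fl (η * v - v * η)) := by
    rw [hr]
    simp only [zero_smul, add_zero, Matrix.adjugate_one, Matrix.mul_one]
    rw [fun_coord f]
  rw [h8] at h7
  rcases mul_eq_zero.1 h7 with h9 | h9
  · have h10 := congrArg Matrix.det hcc
    rw [Matrix.det_mul, h9, zero_mul, Matrix.det_one] at h10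
    exact zero_ne_one h10
  · exact hf1 h9

end Pool.Agent.X222.LR
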