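import Pool.Agent.Y123.ST.Exp

/-!
# Subspaces which are stable under the derivations of the complex numbers over an algebraically closed subfield
-/

set_option autoImplicit false
set_option linter.unusedSectionVars false

open Matrix MvPolynomial

namespace Pool.Agent.X222.LR

open Pool.Agent.TH127.PT Pool.Agent.TH119.DR Pool.Agent.Y123.ST

/-- `K` is algebraically closed in `ℂ`. -/
def Cl (K : Subfield ℂ) : Prop := ∀ z : ℂ, IsAlgebraic K z → z ∈ K

/-- Only the elements of `K` are killed by all derivations of `ℂ` over `K`. -/
theorem exists_der_ne {K : Subfield ℂ} (hK : Cl K) {z : ℂ} (hz : z ∉ K) :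
    ∃ D : Derivation K ℂ ℂ, D z ≠ 0 := by
  have h1 : Transcendental K z := fun h => hz (hK z h)
  have h2 : AlgebraicIndependent K (fun _ : Unit => z) := by
    rw [algebraicIndependent_unique_type_iff]
    exact h1
  obtain ⟨D, hD⟩ := Pool.Agent.H135R2.VS.exists_der h2 (fun _ => 1)
  refine ⟨D, ?_⟩
  rw [hD ()]
  exact one_ne_zero

/-- A subspace which is stable under all derivations of `ℂ` over `K` is defined over `K`. -/
theorem defOver_of_der {K : Subfield ℂ} (hK : Cl K) {B : Type*} [Fintype B] (W : Submodule ℂ (B → ℂ))
    (hC : ∀ D : Derivation K ℂ ℂ, ∀ v ∈ W, (fun i => D (v i)) ∈ W) : DefOver K W := by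
  classical
  have key : ∀ (n : ℕ) (v : B → ℂ), v ∈ W → (Finset.univ.filter (fun i => v i ≠ 0)).card ≤ n →
      v ∈ Submodule.span ℂ {w | w ∈ W ∧ ∀ a, w a ∈ K} := by
    intro n
    induction n with
    | zero =>
      intro v _ hv
      have h1 : v = 0 := by
        funext i
        by_contra h
        have h2 : i ∈ Finset.univ.filter (fun i => v i ≠ 0) := by simpa using h
        rw [Nat.le_zero, Finset.card_eq_zero] at hv
        rw [hv] at h2
        exact absurd h2 (Finset.notMem_empty i)
      rw [h1]
      exact Submodule.zero_mem _
    | succ n ih =>
      intro v hv hcard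
      by_cases hv0 : v = 0
      · rw [hv0]
        exact Submodule.zero_mem _
      · obtain ⟨i0, hi0⟩ : ∃ i, v i ≠ 0 := by
          by_contra hcon
          push Not at hcon
          exact hv0 (funext hcon)
        have hw : (v i0)⁻¹ • v ∈ W := Submodule.smul_mem _ _ hv
        set w := (v i0)⁻¹ • v with hwdef
        have hwi0 : w i0 = 1 := by
          rw [hwdef, Pi.smul_apply, smul_eq_mul, inv_mul_cancel₀ hi0]
        have hwsupp : ∀ i, w i ≠ 0 → v i ≠ 0 := by
          intro i h1 h2
          apply h1
          rw [hwdef, Pi.smul_apply, h2, smul_zero]
        have hvw : v = (v i0) • w := by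
          rw [hwdef, smul_smul, mul_inv_cancel₀ hi0, one_smul]
        by_cases hrat : ∀ i, w i ∈ K
        · rw [hvw]
          exact Submodule.smul_mem _ _ (Submodule.subset_span ⟨hw, hrat⟩)
        · push Not at hrat
          obtain ⟨i1, hi1⟩ := hrat
          obtain ⟨D, hD⟩ := exists_der_ne hK hi1
          set d : B → ℂ := fun i => D (w i) with hd
          have hdC : d ∈ W := hC D w hw
          have hd0 : d i0 = 0 := by
            rw [hd]
            simp [hwi0]
          have hd1 : d i1 ≠ 0 := hD
          have hdsupp : ∀ i, d i ≠ 0 → v i ≠ 0 := by
            intro i h1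
            apply hwsupp
            intro h2
            apply h1
            rw [hd]
            simp [h2]
          have hdcard : (Finset.univ.filter (fun i => d i ≠ 0)).card ≤ n := by
            have h1 : (Finset.univ.filter (fun i => d i ≠ 0)) ⊂
                Finset.univ.filter (fun i => v i ≠ 0) := by
              rw [Finset.ssubset_iff_of_subset]
              · exact ⟨i0, by simpa using hi0, by simpa using hd0⟩
              · intro i hi
                simp only [Finset.mem_filter, Finset.mem_univ, true_and] at hi ⊢
                exact hdsupp i hi
            have h2 := Finset.card_lt_card h1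
            omega
          have h1 := ih d hdC hdcard
          set v' : B → ℂ := v - (v i1 / d i1) • d with hv'
          have hv'C : v' ∈ W := Submodule.sub_mem _ hv (Submodule.smul_mem _ _ hdC)
          have hv'1 : v' i1 = 0 := by
            rw [hv', Pi.sub_apply, Pi.smul_apply, smul_eq_mul, div_mul_cancel₀ _ hd1, sub_self]
          have hv'card : (Finset.univ.filter (fun i => v' i ≠ 0)).card ≤ n := by
            have h1 : (Finset.univ.filter (fun i => v' i ≠ 0)) ⊂
                Finset.univ.filter (fun i => v i ≠ 0) := by
              rw [Finset.ssubset_iff_of_subset]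
              · exact ⟨i1, by simpa using hdsupp i1 hd1, by simpa using hv'1⟩
              · intro i hi
                simp only [Finset.mem_filter, Finset.mem_univ, true_and] at hi ⊢
                intro h0
                apply hi
                have h3 : d i = 0 := by
                  by_contra h4
                  exact hdsupp i h4 h0
                rw [hv', Pi.sub_apply, Pi.smul_apply, h0, h3, smul_zero, sub_zero]
            have h2 := Finset.card_lt_card h1
            omega
          have h2 := ih v' hv'C hv'card
          have h3 : v = v' + (v i1 / d i1) • d := by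
            rw [hv']
            simp
          rw [h3]
          exact Submodule.add_mem _ h2 (Submodule.smul_mem _ _ h1)
  intro v hv
  exact key _ v hv le_rfl

end Pool.Agent.X222.LR
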