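import Mathlib

/-!
# Generic points over countable fields
-/

set_option autoImplicit false

open MvPolynomial Cardinal

namespace Pool.Agent.X222.LR

/-- A countable extension of a countable subfield `K` of `ℂ` can be embedded into `ℂ` over `K`. -/
theorem embed (K : Subfield ℂ) (hK : (K : Set ℂ).Countable) (F : Type) [Field F] [Algebra K F] [Countable F] :
    Nonempty (F →ₐ[K] ℂ) := by
  obtain ⟨s, hs⟩ := exists_isTranscendenceBasis K F
  obtain ⟨B, hB⟩ := exists_isTranscendenceBasis K ℂ
  have hKc : Countable K := hK.to_subtype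
  have h1 : #ℂ = #B := by
    have h0 := IsAlgClosed.cardinal_eq_cardinal_transcendence_basis_of_aleph0_lt (Subtype.val : B → ℂ) hB
      (mk_le_aleph0_iff.2 hKc) (by rw [Cardinal.mk_complex]; exact Cardinal.aleph0_lt_continuum)
    rwa [Cardinal.lift_id, Cardinal.lift_id] at h0
  have h2 : #s ≤ #B := by
    rw [← h1, Cardinal.mk_complex]
    exact (mk_le_aleph0_iff.2 (inferInstance : Countable s)).trans Cardinal.aleph0_le_continuum
  obtain ⟨e⟩ := Cardinal.le_def _ _ |>.1 h2
  have hx : AlgebraicIndependent K (fun i : s => ((e i : B) : ℂ)) := hB.1.comp e e.injective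
  let j : Algebra.adjoin K (Set.range (Subtype.val : s → F)) →ₐ[K] ℂ :=
    (aeval (fun i : s => ((e i : B) : ℂ))).comp (hs.1.aevalEquiv.symm : _ →ₐ[K] MvPolynomial s K)
  have hj : Function.Injective j := by
    have h3 : Function.Injective (aeval (R := K) (fun i : s => ((e i : B) : ℂ))) := hx
    exact h3.comp hs.1.aevalEquiv.symm.injective
  let _ : Algebra (Algebra.adjoin K (Set.range (Subtype.val : s → F))) ℂ := j.toRingHom.toAlgebra
  have _ : FaithfulSMul (Algebra.adjoin K (Set.range (Subtype.val : s → F))) ℂ :=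
    (faithfulSMul_iff_algebraMap_injective _ _).2 hj
  have _ : Algebra.IsAlgebraic (Algebra.adjoin K (Set.range (Subtype.val : s → F))) F := hs.isAlgebraic
  let φ : F →ₐ[Algebra.adjoin K (Set.range (Subtype.val : s → F))] ℂ := IsAlgClosed.lift
  refine ⟨{ φ.toRingHom with commutes' := fun r => ?_ }⟩
  change φ (algebraMap K F r) = algebraMap K ℂ r
  have h3 : algebraMap K F r = algebraMap (Algebra.adjoin K (Set.range (Subtype.val : s → F))) F
      (algebraMap K _ r) := rfl
  rw [h3, φ.commutes]
  change j (algebraMap K _ r) = _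
  rw [j.commutes]

end Pool.Agent.X222.LR
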