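import Pool.Agent.X222.LR.Adj

/-!
# The group of `P` acts trivially on the quotient of the Lie algebras
-/

set_option autoImplicit false
set_option linter.unusedSectionVars false

open Matrix MvPolynomial

namespace Pool.Agent.X222.LR

open Pool.Agent.TH127.PT Pool.Agent.TH119.DR Pool.Agent.Y123.ST

variable {N : Type} [Fintype N] [DecidableEq N]

theorem der_mul {K : Subfield ℂ} (D : Derivation K ℂ ℂ) (A B : Matrix N N ℂ) :
    (A * B).map D = A.map D * B + A * B.map D := by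
  ext i j
  simp only [Matrix.map_apply, Matrix.mul_apply, Matrix.add_apply, map_sum, Derivation.leibniz, smul_eq_mul]
  rw [← Finset.sum_add_distrib]
  refine Finset.sum_congr rfl fun k _ => ?_
  ring

theorem der_one {K : Subfield ℂ} (D : Derivation K ℂ ℂ) : (1 : Matrix N N ℂ).map D = 0 := by
  ext i j
  simp only [Matrix.map_apply, Matrix.one_apply, Matrix.zero_apply]
  split_ifs <;> simp

theorem der_inv {K : Subfield ℂ} (D : Derivation K ℂ ℂ) {A : Matrix N N ℂ} (h : A * A⁻¹ = 1) (h' : A⁻¹ * A = 1) :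
    (A⁻¹).map D = - (A⁻¹ * A.map D * A⁻¹) := by
  have h1 := der_mul D A A⁻¹
  rw [h, der_one] at h1
  have h2 : A * (A⁻¹).map D = - (A.map D * A⁻¹) := by
    rw [eq_neg_iff_add_eq_zero, add_comm]
    exact h1.symm
  calc (A⁻¹).map D = A⁻¹ * (A * (A⁻¹).map D) := by rw [← Matrix.mul_assoc, h', Matrix.one_mul]
    _ = _ := by rw [h2, Matrix.mul_neg, ← Matrix.mul_assoc]

theorem der_const {K : Subfield ℂ} (D : Derivation K ℂ ℂ) {A : Matrix N N ℂ} (h : ∀ i j, A i j ∈ K) :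
    A.map D = 0 := by
  ext i j
  rw [Matrix.map_apply, Matrix.zero_apply]
  exact D.map_algebraMap ⟨A i j, h i j⟩

variable {K : Subfield ℂ} {T P : Set (Matrix N N ℂ)} {c : Matrix N N ℂ}

theorem val_mem (hK : Cl K) (hT : IsSubtorsor K T) (hP : IsSubtorsor K P) (hTP : T ⊆ P) (hc : c ∈ T)
    (hl : AdRel K P c) {w : Matrix N N ℂ} (hw : fl w ∈ RR P) (hwK : ∀ i j, w i j ∈ K) {u : N × N → ℂ}
    (huK : ∀ b, u b ∈ K) (hu : ∀ a ∈ LL T, ∑ b, u b * a b = 0) : ∑ b, u b * fl (c * w * c⁻¹) b ∈ K := by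
  by_contra hz
  obtain ⟨D, hD⟩ := exists_der_ne hK hz
  apply hD
  have hcc : c * c⁻¹ = 1 := mul_inv' hT hc
  have hcc' : c⁻¹ * c = 1 := inv_mul' hT hc
  set η := c * w * c⁻¹ with hη
  set ζ := c.map D * c⁻¹ with hζ
  have h1 : η.map D = ζ * η - η * ζ := by
    rw [hη, der_mul, der_mul, der_const D hwK, Matrix.mul_zero, add_zero, der_inv D hcc hcc', hζ, sub_eq_add_neg,
      Matrix.mul_neg]
    congr 1
    · calc c.map D * w * c⁻¹ = c.map D * (c⁻¹ * c) * w * c⁻¹ := by rw [hcc', Matrix.mul_one]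
        _ = _ := by simp only [Matrix.mul_assoc]
    · congr 1
      simp only [Matrix.mul_assoc]
  have h2 : fl (η * ζ - ζ * η) ∈ LL T :=
    br hT hP hTP hc hl (conj_mem' hP (hTP hc) hw) (logder_mem hT D hc)
  have h3 := hu _ h2
  have h4 : D (∑ b, u b * fl η b) = ∑ b, u b * fl (η.map D) b := by
    rw [map_sum]
    refine Finset.sum_congr rfl fun b _ => ?_
    rw [Derivation.leibniz, smul_eq_mul, smul_eq_mul]
    have h5 : D (u b) = 0 := D.map_algebraMap ⟨u b, huK b⟩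
    rw [h5, mul_zero, add_zero]
    rfl
  rw [h4, h1]
  have h6 : ∀ b, u b * fl (ζ * η - η * ζ) b = - (u b * fl (η * ζ - ζ * η) b) := by
    intro b
    have : fl (ζ * η - η * ζ) b = - fl (η * ζ - ζ * η) b := by
      simp [fl]
    rw [this]
    ring
  rw [Finset.sum_congr rfl fun b _ => h6 b, Finset.sum_neg_distrib, h3, neg_zero]

theorem diff_mem (hK : Cl K) (hT : IsSubtorsor K T) (hP : IsSubtorsor K P) (hTP : T ⊆ P) (hc : c ∈ T)
    (hl : AdRel K P c) {w : N × N → ℂ} (hw : w ∈ RR P) {x : Matrix N N ℂ} (hx : x ∈ P) :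
    fl (x * um w * x⁻¹ - c * um w * c⁻¹) ∈ LL T := by
  have h1 : w ∈ Submodule.span ℂ {w : N × N → ℂ | w ∈ RR P ∧ ∀ a, w a ∈ K} := RR_def hP hw
  clear hw
  induction h1 using Submodule.span_induction with
  | mem w hw =>
    obtain ⟨hw1, hw2⟩ := hw
    refine mem_LL_of hT fun u hu huK => ?_
    have h6 : fl (um w) ∈ RR P := by rw [fl_um]; exact hw1
    have h4 := hl (um w) h6 (fun i j => hw2 (i, j)) u huK _
      (val_mem hK hT hP hTP hc hl h6 (fun i j => hw2 (i, j)) huK hu) rfl x hx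
    have h5 : ∀ b, u b * fl (x * um w * x⁻¹ - c * um w * c⁻¹) b =
        u b * fl (x * um w * x⁻¹) b - u b * fl (c * um w * c⁻¹) b := by
      intro b
      rw [← mul_sub]
      rfl
    rw [Finset.sum_congr rfl fun b _ => h5 b, Finset.sum_sub_distrib, h4, sub_self]
  | zero =>
    rw [um_zero]
    simp only [Matrix.mul_zero, Matrix.zero_mul, sub_zero]
    exact Submodule.zero_mem _
  | add v w _ _ hv hw =>
    have h2 : fl (x * um (v + w) * x⁻¹ - c * um (v + w) * c⁻¹) =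
        fl (x * um v * x⁻¹ - c * um v * c⁻¹) + fl (x * um w * x⁻¹ - c * um w * c⁻¹) := by
      rw [← fl_add, um_add, Matrix.mul_add, Matrix.mul_add, Matrix.add_mul, Matrix.add_mul]
      congr 1
      abel
    rw [h2]
    exact Submodule.add_mem _ hv hw
  | smul z v _ hv =>
    have h2 : fl (x * um (z • v) * x⁻¹ - c * um (z • v) * c⁻¹) =
        z • fl (x * um v * x⁻¹ - c * um v * c⁻¹) := by
      rw [← fl_smul, um_smul, Matrix.mul_smul, Matrix.mul_smul, Matrix.smul_mul, Matrix.smul_mul, smul_sub]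
    rw [h2]
    exact Submodule.smul_mem _ _ hv

/-- **The group of `P` acts trivially on `Lie P / Lie T`.** -/
theorem triv (hK : Cl K) (hT : IsSubtorsor K T) (hP : IsSubtorsor K P) (hTP : T ⊆ P) (hc : c ∈ T)
    (hl : AdRel K P c) {η : Matrix N N ℂ} (hη : fl η ∈ LL P) {g : Matrix N N ℂ} (hg : g * c ∈ P) :
    fl (g * η * g⁻¹ - η) ∈ LL T := by
  have hcc : c * c⁻¹ = 1 := mul_inv' hT hc
  have h1 := diff_mem hK hT hP hTP hc hl (conj_mem hP (hTP hc) hη) hg
  rw [um_fl] at h1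
  have h2 : g * c * (c⁻¹ * η * c) * (g * c)⁻¹ = g * η * g⁻¹ := by
    rw [Matrix.mul_inv_rev]
    calc g * c * (c⁻¹ * η * c) * (c⁻¹ * g⁻¹) = g * (c * c⁻¹) * η * (c * c⁻¹) * g⁻¹ := by
          simp only [Matrix.mul_assoc]
      _ = _ := by rw [hcc, Matrix.mul_one, Matrix.mul_one]
  have h3 : c * (c⁻¹ * η * c) * c⁻¹ = η := by
    calc c * (c⁻¹ * η * c) * c⁻¹ = (c * c⁻¹) * η * (c * c⁻¹) := by simp only [Matrix.mul_assoc]
      _ = _ := by rw [hcc, Matrix.one_mul, Matrix.mul_one]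
  rw [h2, h3] at h1
  exact h1

end Pool.Agent.X222.LR
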