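import Pool.Agent.X222.LR.Emb
import Pool.Agent.X222.LR.Triv

/-!
# Countable algebraically closed fields and generic points of a torsor
-/

set_option autoImplicit false
set_option linter.unusedSectionVars false

open Matrix MvPolynomial Cardinal

namespace Pool.Agent.X222.LR

open Pool.Agent.TH127.PT Pool.Agent.TH119.DR Pool.Agent.Y123.ST

theorem exists_field (K : Subfield ℂ) (hK : (K : Set ℂ).Countable) (S : Set ℂ) (hS : S.Countable) :
    ∃ K₁ : Subfield ℂ, K ≤ K₁ ∧ S ⊆ K₁ ∧ (K₁ : Set ℂ).Countable ∧ Cl K₁ := by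
  let L := Subfield.closure ((K : Set ℂ) ∪ S)
  have hL1 : #L ≤ ℵ₀ := by
    refine (Subfield.cardinalMk_closure_le_max _).trans ?_
    refine max_le ?_ le_rfl
    rw [mk_le_aleph0_iff]
    exact (hK.union hS).to_subtype
  let M := algebraicClosure L ℂ
  have hM : #M ≤ ℵ₀ := by
    refine (Algebra.IsAlgebraic.cardinalMk_le_max L M).trans ?_
    exact max_le hL1 le_rfl
  have hLM : ∀ z ∈ L, z ∈ M.toSubfield := fun z hz => M.algebraMap_mem ⟨z, hz⟩
  refine ⟨M.toSubfield, ?_, ?_, ?_, ?_⟩
  · intro z hz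
    exact hLM z (Subfield.subset_closure (Or.inl hz))
  · intro z hz
    exact hLM z (Subfield.subset_closure (Or.inr hz))
  · have : Countable M := mk_le_aleph0_iff.1 hM
    exact Set.countable_coe_iff.1 this
  · intro z hz
    change z ∈ M
    rw [mem_algebraicClosure_iff]
    have h1 : IsAlgebraic M z := hz
    exact h1.restrictScalars L

variable {N : Type} [Fintype N] [DecidableEq N]

/-- irreducibility -/
def Irr (P : Set (Matrix N N ℂ)) : Prop :=
  ∀ p q : MvPolynomial (N × N) ℂ, Van P (p * q) → Van P p ∨ Van P q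

theorem IsSubtorsor.mono {K K₁ : Subfield ℂ} (h : K ≤ K₁) {T : Set (Matrix N N ℂ)} (hT : IsSubtorsor K T) :
    IsSubtorsor K₁ T := by
  refine ⟨hT.isUnit, hT.torsor, ?_⟩
  obtain ⟨I, h1, h2⟩ := hT.algebraic
  exact ⟨I, fun p hp m => h (h1 p hp m), h2⟩

theorem aeval_eq {K : Subfield ℂ} (x : N × N → ℂ) (f : MvPolynomial (N × N) K) :
    aeval x f = eval x (f.map (algebraMap K ℂ)) := by
  rw [eval_map]
  rfl

theorem countable_frac (A : Type) [CommRing A] [IsDomain A] [Countable A] : Countable (FractionRing A) := by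
  have h1 : Function.Surjective
      fun p : A × A => (algebraMap A (FractionRing A) p.1) / (algebraMap A (FractionRing A) p.2) := by
    intro z
    obtain ⟨a, b, -, rfl⟩ := IsFractionRing.div_surjective (A := A) z
    exact ⟨(a, b), rfl⟩
  exact h1.countable

/-- **Generic points.** -/
theorem exists_gen {K : Subfield ℂ} (hK : (K : Set ℂ).Countable) {P : Set (Matrix N N ℂ)} (hP : IsSubtorsor K P)
    (hirr : Irr P) {c : Matrix N N ℂ} (hc : c ∈ P) :
    ∃ x ∈ P, ∀ f : MvPolynomial (N × N) K, aeval (fl x) f = 0 → ∀ y ∈ P, aeval (fl y) f = 0 := by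
  classical
  have hKc : Countable K := hK.to_subtype
  let J : Ideal (MvPolynomial (N × N) K) :=
    { carrier := {f | ∀ y ∈ P, aeval (fl y) f = 0}
      zero_mem' := fun y _ => map_zero _
      add_mem' := by
        intro f g hf hg y hy
        rw [map_add, hf y hy, hg y hy, add_zero]
      smul_mem' := by
        intro a f hf y hy
        rw [smul_eq_mul, map_mul, hf y hy, mul_zero] }
  have hJ : J.IsPrime := by
    refine ⟨fun h => ?_, fun {f g} hfg => ?_⟩
    · have h1 : (1 : MvPolynomial (N × N) K) ∈ J := by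
        rw [h]
        exact Submodule.mem_top
      have h2 := h1 c hc
      rw [map_one] at h2
      exact one_ne_zero h2
    · have h1 : Van P (f.map (algebraMap K ℂ) * g.map (algebraMap K ℂ)) := by
        intro y hy
        rw [← map_mul, ← aeval_eq]
        exact hfg y hy
      rcases hirr _ _ h1 with h2 | h2
      · exact Or.inl fun y hy => by rw [aeval_eq]; exact h2 y hy
      · exact Or.inr fun y hy => by rw [aeval_eq]; exact h2 y hy
  let A := MvPolynomial (N × N) K ⧸ J
  let F := FractionRing A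
  have _ : Countable (MvPolynomial (N × N) K) := by
    rw [← mk_le_aleph0_iff]
    refine (MvPolynomial.cardinalMk_le_max).trans ?_
    exact max_le (max_le (mk_le_aleph0_iff.2 hKc) (mk_le_aleph0_iff.2 inferInstance)) le_rfl
  have _ : Countable A := Quotient.countable
  have _ : Countable F := countable_frac A
  obtain ⟨φ⟩ := embed K hK F
  let ψ : MvPolynomial (N × N) K →ₐ[K] ℂ :=
    (φ.comp (IsScalarTower.toAlgHom K A F)).comp (Ideal.Quotient.mkₐ K J)
  have hψ : ∀ f, ψ f = 0 → f ∈ J := by
    intro f hf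
    have h1 : φ (algebraMap A F (Ideal.Quotient.mk J f)) = 0 := hf
    have h2 : algebraMap A F (Ideal.Quotient.mk J f) = 0 := φ.toRingHom.injective (by
      change φ _ = φ 0
      rw [h1, map_zero])
    have h3 : Ideal.Quotient.mk J f = 0 := IsFractionRing.injective A F (by rw [h2, map_zero])
    exact Ideal.Quotient.eq_zero_iff_mem.1 h3
  let x : Matrix N N ℂ := um fun b => ψ (X b)
  have hx : ∀ f, aeval (fl x) f = ψ f := by
    intro f
    have h1 : (aeval (fl x) : MvPolynomial (N × N) K →ₐ[K] ℂ) = ψ := by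
      apply MvPolynomial.algHom_ext
      intro b
      rw [aeval_X]
      rfl
    rw [h1]
  have hψJ : ∀ f ∈ J, ψ f = 0 := by
    intro f hf
    change φ (algebraMap A F (Ideal.Quotient.mk J f)) = 0
    rw [Ideal.Quotient.eq_zero_iff_mem.2 hf, map_zero, map_zero]
  have hdet : ∀ y : Matrix N N ℂ, aeval (fl y) (mvPolynomialX N N K).det = y.det := by
    intro y
    rw [AlgHom.map_det]
    congr 1
    ext i j
    simp [mvPolynomialX, fl]
  obtain ⟨I, hI1, hI2⟩ := hP.algebraic
  refine ⟨x, ?_, fun f hf => hψ f (by rw [← hx]; exact hf)⟩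
  rw [hI2]
  refine ⟨?_, fun p hp => ?_⟩
  · rw [Matrix.isUnit_iff_isUnit_det, isUnit_iff_ne_zero, ← hdet, hx]
    intro h0
    have h1 := hψ _ h0 c hc
    rw [hdet] at h1
    have h2 := (Matrix.isUnit_iff_isUnit_det c).1 (hP.isUnit c hc)
    rw [h1] at h2
    exact not_isUnit_zero h2
  · obtain ⟨p0, hp0⟩ := exists_map p (hI1 p hp)
    change eval (fl x) p = 0
    rw [← hp0, ← aeval_eq, hx]
    apply hψJ
    intro y hy
    rw [aeval_eq, hp0]
    exact ((hI2 y).1 hy).2 p hp

end Pool.Agent.X222.LR
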