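import Pool.Agent.X222.LR.Fld

/-!
# A subtorsor which contains `c` contains the orbit of `c` under the commutators
-/

set_option autoImplicit false
set_option linter.unusedSectionVars false

open Matrix MvPolynomial

namespace Pool.Agent.X222.LR

open Pool.Agent.TH127.PT Pool.Agent.TH119.DR Pool.Agent.Y123.ST

variable {N : Type} [Fintype N] [DecidableEq N]

/-- the polynomial with the coefficients `v` -/
noncomputable def FF (S : Finset ((N × N) →₀ ℕ)) (v : S → ℂ) : MvPolynomial (N × N) ℂ :=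
  ∑ m : S, monomial (m : (N × N) →₀ ℕ) (v m)

theorem FF_eq (S : Finset ((N × N) →₀ ℕ)) (v : S → ℂ) :
    FF S v = ∑ m : S, v m • monomial (m : (N × N) →₀ ℕ) (1 : ℂ) := by
  unfold FF
  refine Finset.sum_congr rfl fun m _ => ?_
  rw [smul_monomial, smul_eq_mul, mul_one]

theorem eval_FF (S : Finset ((N × N) →₀ ℕ)) (v : S → ℂ) (x : N × N → ℂ) :
    eval x (FF S v) = ∑ m : S, v m * eval x (monomial (m : (N × N) →₀ ℕ) (1 : ℂ)) := by
  rw [FF_eq, map_sum]
  refine Finset.sum_congr rfl fun m _ => ?_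
  rw [smul_eval]

theorem dd_FF (S : Finset ((N × N) →₀ ℕ)) (v : S → ℂ) (x z : N × N → ℂ) :
    dd (FF S v) x z = ∑ m : S, v m * dd (monomial (m : (N × N) →₀ ℕ) (1 : ℂ)) x z := by
  rw [FF_eq, dd_sum]
  refine Finset.sum_congr rfl fun m _ => ?_
  rw [dd_smul]

theorem der_FF {K : Subfield ℂ} (D : Derivation K ℂ ℂ) (S : Finset ((N × N) →₀ ℕ)) (v : S → ℂ) (x : N × N → ℂ) :
    D (eval x (FF S v)) = eval x (FF S fun m => D (v m)) + dd (FF S v) x (fun b => D (x b)) := by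
  rw [eval_FF, eval_FF, dd_FF, map_sum, ← Finset.sum_add_distrib]
  refine Finset.sum_congr rfl fun m _ => ?_
  rw [Derivation.leibniz, smul_eq_mul, smul_eq_mul, dd_der' D (monomial (m : (N × N) →₀ ℕ) (1 : ℂ))]
  · ring
  · intro m'
    rw [coeff_monomial]
    split_ifs
    · exact K.one_mem
    · exact K.zero_mem

variable {K : Subfield ℂ} {T P : Set (Matrix N N ℂ)} {c : Matrix N N ℂ}

theorem tang {z : Matrix N N ℂ} {Q : MvPolynomial (N × N) ℂ} (hQ : ∀ t ∈ T, eval (fl (t * z)) Q = 0)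
    {w t : Matrix N N ℂ} (hw : fl w ∈ LL T) (ht : t ∈ T) : dd Q (fl (t * z)) (fl (w * (t * z))) = 0 := by
  have h1 : Van T (cp (mr z) Q) := by
    intro t ht
    rw [eval_cp, mr_fl]
    exact hQ t ht
  have h2 := hw _ h1 t ht
  rw [um_fl, dd_cp, mr_fl, mr_fl, Matrix.mul_assoc] at h2
  exact h2

theorem mem_of_spec (hK : Cl K) (hT : IsSubtorsor K T) {y : Matrix N N ℂ} (hc : c ∈ T) (hcK : ∀ i j, c i j ∈ K)
    (hy : y * y⁻¹ = 1) (hy' : y⁻¹ * y = 1) (hD : ∀ D : Derivation K ℂ ℂ, fl (y.map D * y⁻¹) ∈ LL T)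
    (hs : ∀ p : MvPolynomial (N × N) ℂ, (∀ m, p.coeff m ∈ K) → eval (fl y) p = 0 → eval (fl c) p = 0) : y ∈ T := by
  classical
  have hcc : c * c⁻¹ = 1 := mul_inv' hT hc
  have hcc' : c⁻¹ * c = 1 := inv_mul' hT hc
  -- all polynomials which vanish on `T c⁻¹ y` vanish at `c`
  have key : ∀ Q : MvPolynomial (N × N) ℂ, (∀ t ∈ T, eval (fl (t * (c⁻¹ * y))) Q = 0) → eval (fl c) Q = 0 := by
    intro Q hQ
    let S := Q.support
    let W : Submodule ℂ (S → ℂ) :=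
      { carrier := {v | ∀ t ∈ T, eval (fl (t * (c⁻¹ * y))) (FF S v) = 0}
        zero_mem' := by
          intro t _
          rw [eval_FF]
          simp
        add_mem' := by
          intro v w hv hw t ht
          have h1 := hv t ht
          have h2 := hw t ht
          rw [eval_FF] at h1 h2 ⊢
          simp only [Pi.add_apply, add_mul, Finset.sum_add_distrib]
          rw [h1, h2, add_zero]
        smul_mem' := by
          intro a v hv t ht
          have h1 := hv t ht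
          rw [eval_FF] at h1 ⊢
          simp only [Pi.smul_apply, smul_eq_mul, mul_assoc, ← Finset.mul_sum]
          rw [h1, mul_zero] }
    have hW : DefOver K W := by
      refine defOver_of_der hK W fun D v hv t ht => ?_
      have h1 := der_FF D S v (fl (t * (c⁻¹ * y)))
      rw [hv t ht, map_zero] at h1
      have ht1 : t⁻¹ * t = 1 := inv_mul' hT ht
      have hdc : (c⁻¹).map D = 0 := by
        rw [der_inv D hcc hcc', der_const D hcK, Matrix.mul_zero, Matrix.zero_mul, neg_zero]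
      have h2 : (t * (c⁻¹ * y)).map D = t.map D * t⁻¹ * (t * (c⁻¹ * y)) +
          t * (c⁻¹ * (y.map D * y⁻¹) * c) * t⁻¹ * (t * (c⁻¹ * y)) := by
        rw [der_mul, der_mul, hdc, Matrix.zero_mul, zero_add]
        congr 1
        · calc t.map D * (c⁻¹ * y) = t.map D * 1 * (c⁻¹ * y) := by rw [Matrix.mul_one]
            _ = _ := by rw [← ht1]; simp only [Matrix.mul_assoc]
        · calc t * (c⁻¹ * y.map D) = t * (c⁻¹ * y.map D) * (y⁻¹ * y) := by rw [hy', Matrix.mul_one]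
            _ = t * (c⁻¹ * y.map D) * (y⁻¹ * (c * (t⁻¹ * t) * c⁻¹) * y) := by
              rw [ht1, Matrix.mul_one, hcc, Matrix.mul_one]
            _ = _ := by simp only [Matrix.mul_assoc]
      have h3 : dd (FF S v) (fl (t * (c⁻¹ * y))) (fun b => D (fl (t * (c⁻¹ * y)) b)) = 0 := by
        have h4 : (fun b => D (fl (t * (c⁻¹ * y)) b)) = fl ((t * (c⁻¹ * y)).map D) := rfl
        rw [h4, h2, fl_add, dd_add_right, tang hv (logder_mem hT D ht) ht,
          tang hv (conj_mem' hT ht (conj_mem hT hc (hD D))) ht, add_zero]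
      rw [h3, add_zero] at h1
      exact h1.symm
    have hQF : FF S (fun m => Q.coeff m) = Q := by
      unfold FF
      rw [Finset.sum_coe_sort S (fun m => monomial m (Q.coeff m))]
      exact Q.support_sum_monomial_coeff
    have hmem : (fun m : S => Q.coeff m) ∈ W := by
      intro t ht
      rw [hQF]
      exact hQ t ht
    have h5 : ∀ v ∈ Submodule.span ℂ {w : S → ℂ | w ∈ W ∧ ∀ a, w a ∈ K}, eval (fl c) (FF S v) = 0 := by
      intro v hv
      induction hv using Submodule.span_induction with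
      | mem w hw =>
        obtain ⟨hw1, hw2⟩ := hw
        refine hs _ (fun m => ?_) ?_
        · simp only [FF, coeff_sum, coeff_monomial]
          refine sum_mem fun i _ => ?_
          split_ifs
          · exact hw2 i
          · exact K.zero_mem
        · have h6 := hw1 c hc
          rw [← Matrix.mul_assoc, hcc, Matrix.one_mul] at h6
          exact h6
      | zero =>
        rw [eval_FF]
        simp
      | add v w _ _ hv hw =>
        rw [eval_FF] at hv hw ⊢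
        simp only [Pi.add_apply, add_mul, Finset.sum_add_distrib]
        rw [hv, hw, add_zero]
      | smul a v _ hv =>
        rw [eval_FF] at hv ⊢
        simp only [Pi.smul_apply, smul_eq_mul, mul_assoc, ← Finset.mul_sum]
        rw [hv, mul_zero]
    have h6 := h5 _ (hW hmem)
    rw [hQF] at h6
    exact h6
  obtain ⟨I, hI1, hI2⟩ := hT.algebraic
  have h1 : c * (y⁻¹ * c) ∈ T := by
    rw [hI2]
    refine ⟨?_, fun p hp => ?_⟩
    · refine (hT.isUnit c hc).mul (IsUnit.mul ?_ (hT.isUnit c hc))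
      exact IsUnit.of_mul_eq_one y hy'
    · have h2 := key (cp (mr (y⁻¹ * c)) p) (by
        intro t ht
        rw [eval_cp, mr_fl]
        have h3 : t * (c⁻¹ * y) * (y⁻¹ * c) = t := by
          calc t * (c⁻¹ * y) * (y⁻¹ * c) = t * (c⁻¹ * (y * y⁻¹) * c) := by simp only [Matrix.mul_assoc]
            _ = t := by rw [hy, Matrix.mul_one, hcc', Matrix.mul_one]
        rw [h3]
        exact ((hI2 t).1 ht).2 p hp)
      rw [eval_cp, mr_fl] at h2
      exact h2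
  have h2 := hT.torsor c hc _ h1 c hc
  have h3 : c * (c * (y⁻¹ * c))⁻¹ * c = y := by
    rw [Matrix.mul_inv_rev, Matrix.mul_inv_rev,
      Matrix.nonsing_inv_nonsing_inv y ((Matrix.isUnit_iff_isUnit_det y).1 (IsUnit.of_mul_eq_one y⁻¹ hy))]
    calc c * (c⁻¹ * y * c⁻¹) * c = (c * c⁻¹) * y * (c⁻¹ * c) := by simp only [Matrix.mul_assoc]
      _ = y := by rw [hcc, hcc', Matrix.one_mul, Matrix.mul_one]
  rw [h3] at h2
  exact h2

theorem exists_mat {g : Matrix N N ℂ} (hg : ∀ i j, g i j ∈ K) : ∃ g0 : Matrix N N K, g0.map (algebraMap K ℂ) = g :=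
  ⟨Matrix.of fun i j => ⟨g i j, hg i j⟩, rfl⟩

theorem transfer {x : Matrix N N ℂ} (hxP : x * x⁻¹ = 1)
    (hgen : ∀ f : MvPolynomial (N × N) K, aeval (fl x) f = 0 → ∀ y ∈ P, aeval (fl y) f = 0) {g h c : Matrix N N ℂ}
    (hg : ∀ i j, g i j ∈ K) (hh : ∀ i j, h i j ∈ K) (hcK : ∀ i j, c i j ∈ K) {p : MvPolynomial (N × N) ℂ}
    (hp : ∀ m, p.coeff m ∈ K) (h0 : eval (fl (g * x * h * x⁻¹ * c)) p = 0) {y : Matrix N N ℂ} (hy : y ∈ P)
    (hyu : y * y⁻¹ = 1) : eval (fl (g * y * h * y⁻¹ * c)) p = 0 := by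
  classical
  obtain ⟨p0, hp0⟩ := exists_map p hp
  obtain ⟨g0, hg0⟩ := exists_mat hg
  obtain ⟨h0', hh0⟩ := exists_mat hh
  obtain ⟨c0, hc0⟩ := exists_mat hcK
  let XX : Matrix N N (MvPolynomial (N × N) K) := mvPolynomialX N N K
  let M : Matrix N N (MvPolynomial (N × N) K) := g0.map C * XX * h0'.map C * XX.adjugate * c0.map C
  let k := p0.totalDegree
  let f : MvPolynomial (N × N) K :=
    ∑ m ∈ p0.support, C (p0.coeff m) * XX.det ^ (k - ∑ b, m b) * ∏ b, (M b.1 b.2) ^ (m b)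
  have hX : ∀ z : Matrix N N ℂ, XX.map (aeval (fl z) : MvPolynomial (N × N) K →ₐ[K] ℂ) = z := by
    intro z
    ext i j
    simp [XX, mvPolynomialX, fl]
  have hC : ∀ (z : Matrix N N ℂ) (a0 : Matrix N N K),
      (a0.map (C : K → MvPolynomial (N × N) K)).map (aeval (fl z) : MvPolynomial (N × N) K →ₐ[K] ℂ) =
        a0.map (algebraMap K ℂ) := by
    intro z a0
    ext i j
    simp
  have hdet : ∀ z : Matrix N N ℂ, aeval (fl z) XX.det = z.det := by
    intro z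
    rw [AlgHom.map_det]
    congr 1
    exact hX z
  have hM : ∀ z : Matrix N N ℂ, z * z⁻¹ = 1 → ∀ b : N × N,
      aeval (fl z) (M b.1 b.2) = z.det * fl (g * z * h * z⁻¹ * c) b := by
    intro z hz b
    have h1 : M.map (aeval (fl z) : MvPolynomial (N × N) K →ₐ[K] ℂ) = z.det • (g * z * h * z⁻¹ * c) := by
      have h2 : (XX.adjugate).map (aeval (fl z) : MvPolynomial (N × N) K →ₐ[K] ℂ) = z.adjugate := by
        have h4 := (aeval (fl z) : MvPolynomial (N × N) K →ₐ[K] ℂ).map_adjugate XX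
        rw [AlgHom.mapMatrix_apply, AlgHom.mapMatrix_apply, hX] at h4
        exact h4
      simp only [M]
      rw [Matrix.map_mul, Matrix.map_mul, Matrix.map_mul, Matrix.map_mul, hX, hC, hC, hC, h2, hg0, hh0, hc0,
        adj_inv hz, Matrix.mul_smul, Matrix.smul_mul]
    have h3 := congrFun (congrFun h1 b.1) b.2
    exact h3
  have hf : ∀ z : Matrix N N ℂ, z * z⁻¹ = 1 →
      aeval (fl z) f = z.det ^ k * eval (fl (g * z * h * z⁻¹ * c)) p := by
    intro z hz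
    simp only [f]
    rw [map_sum, ← hp0, ← aeval_eq, aeval_def, eval₂_eq', Finset.mul_sum]
    refine Finset.sum_congr rfl fun m hm => ?_
    rw [map_mul, map_mul, map_pow, hdet, aeval_C, map_prod]
    have h1 : ∏ b, aeval (fl z) (M b.1 b.2 ^ m b) =
        z.det ^ (∑ b, m b) * ∏ b, (fl (g * z * h * z⁻¹ * c) b) ^ m b := by
      rw [← Finset.prod_pow_eq_pow_sum, ← Finset.prod_mul_distrib]
      refine Finset.prod_congr rfl fun b _ => ?_
      rw [map_pow, hM z hz b, mul_pow]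
    rw [h1]
    have h2 : ∑ b, m b ≤ k := by
      have h3 := le_totalDegree hm
      rw [Finsupp.sum_fintype _ _ (fun _ => rfl)] at h3
      exact h3
    have h4 : z.det ^ k = z.det ^ (k - ∑ b, m b) * z.det ^ (∑ b, m b) := by
      rw [← pow_add, Nat.sub_add_cancel h2]
    rw [h4]
    ring
  have h1 := hgen f (by rw [hf x hxP, h0, mul_zero]) y hy
  rw [hf y hyu] at h1
  have hne : y.det ≠ 0 := by
    intro h2
    have h3 := congrArg Matrix.det hyu
    rw [Matrix.det_mul, h2, zero_mul, Matrix.det_one] at h3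
    exact zero_ne_one h3
  exact (mul_eq_zero.1 h1).resolve_left (pow_ne_zero _ hne)

/-- entries of a matrix which is killed by the derivations -/
theorem entries_inv (hK : Cl K) {g : Matrix N N ℂ} (hg : ∀ i j, g i j ∈ K) (h : g * g⁻¹ = 1) (h' : g⁻¹ * g = 1) :
    ∀ i j, g⁻¹ i j ∈ K := by
  intro i j
  by_contra hcon
  obtain ⟨D, hD⟩ := exists_der_ne hK hcon
  apply hD
  have h1 := der_inv D h h'
  rw [der_const D hg, Matrix.mul_zero, Matrix.zero_mul, neg_zero] at h1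
  exact congrFun (congrFun h1 i) j

theorem id1 (g x h x' c ξ g' : Matrix N N ℂ) (h' : g' * g = 1) :
    g * (ξ * x) * h * x' * c = g * ξ * g' * (g * x * h * x' * c) := by
  have h1 : g * ξ * g' * (g * x * h * x' * c) = g * ξ * (g' * g) * (x * h * x' * c) := by
    simp only [Matrix.mul_assoc]
  rw [h1, h', Matrix.mul_one]
  simp only [Matrix.mul_assoc]

theorem id2 (u c ξ c' u' : Matrix N N ℂ) (h' : c * c' = 1) : u * ξ * c * (c' * u') = u * ξ * u' := by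
  have h1 : u * ξ * c * (c' * u') = u * ξ * (c * c') * u' := by
    simp only [Matrix.mul_assoc]
  rw [h1, h', Matrix.mul_one]

theorem id3 {K : Subfield ℂ} (D : Derivation K ℂ ℂ) {g x h c ξ g' : Matrix N N ℂ} (hg : g.map D = 0) (hh : h.map D = 0)
    (hc : c.map D = 0) (h' : g' * g = 1) (hx1 : x.map D = ξ * x) (hx2 : (x⁻¹).map D = - (x⁻¹ * ξ)) :
    (g * x * h * x⁻¹ * c).map D = g * ξ * g' * (g * x * h * x⁻¹ * c) - g * x * h * x⁻¹ * ξ * c := by
  rw [← id1 g x h x⁻¹ c ξ g' h', der_mul, der_mul, der_mul, der_mul, hg, hh, hc, Matrix.zero_mul, zero_add,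
    Matrix.mul_zero, add_zero, Matrix.mul_zero, add_zero, hx1, hx2, Matrix.mul_neg, Matrix.add_mul, Matrix.neg_mul,
    ← sub_eq_add_neg]
  simp only [Matrix.mul_assoc]

/-- **The commutators.** -/
theorem comm_mem (hK : (K : Set ℂ).Countable) (hKc : Cl K) (hT : IsSubtorsor K T) (hP : IsSubtorsor K P)
    (hirr : Irr P) (hTP : T ⊆ P) (hc : c ∈ T) (hl : AdRel K P c) {a b x' : Matrix N N ℂ} (ha : a ∈ P) (hb : b ∈ P)
    (hx' : x' ∈ P) : a * b⁻¹ * x' * (c⁻¹ * (b * a⁻¹) * c) * x'⁻¹ * c ∈ T := by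
  have hcP : c ∈ P := hTP hc
  have hcc : c * c⁻¹ = 1 := mul_inv' hT hc
  have hcc' : c⁻¹ * c = 1 := inv_mul' hT hc
  have haa : a * a⁻¹ = 1 := mul_inv' hP ha
  have haa' : a⁻¹ * a = 1 := inv_mul' hP ha
  have hbb : b * b⁻¹ = 1 := mul_inv' hP hb
  have hbb' : b⁻¹ * b = 1 := inv_mul' hP hb
  have hKL := hKc
  obtain ⟨K₁, hKK, hS, hK₁, hKc₁⟩ := exists_field K hK
    (((Set.range (fl a)) ∪ Set.range (fl b)) ∪ Set.range (fl c))
    (((Set.finite_range _).union (Set.finite_range _)).union (Set.finite_range _)).countable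
  have haK : ∀ i j, a i j ∈ K₁ := fun i j => hS (Or.inl (Or.inl ⟨(i, j), rfl⟩))
  have hbK : ∀ i j, b i j ∈ K₁ := fun i j => hS (Or.inl (Or.inr ⟨(i, j), rfl⟩))
  have hcK : ∀ i j, c i j ∈ K₁ := fun i j => hS (Or.inr ⟨(i, j), rfl⟩)
  have hmulK : ∀ A B : Matrix N N ℂ, (∀ i j, A i j ∈ K₁) → (∀ i j, B i j ∈ K₁) → ∀ i j, (A * B) i j ∈ K₁ := by
    intro A B hA hB i j
    rw [Matrix.mul_apply]
    exact sum_mem fun k _ => mul_mem (hA i k) (hB k j)
  have hT₁ : IsSubtorsor K₁ T := IsSubtorsor.mono hKK hT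
  have hP₁ : IsSubtorsor K₁ P := IsSubtorsor.mono hKK hP
  set g := a * b⁻¹ with hg
  set g' := b * a⁻¹ with hg'
  have hgg : g * g' = 1 := by
    calc a * b⁻¹ * (b * a⁻¹) = a * (b⁻¹ * b) * a⁻¹ := by simp only [Matrix.mul_assoc]
      _ = 1 := by rw [hbb', Matrix.mul_one, haa]
  have hgg' : g' * g = 1 := by
    calc b * a⁻¹ * (a * b⁻¹) = b * (a⁻¹ * a) * b⁻¹ := by simp only [Matrix.mul_assoc]
      _ = 1 := by rw [haa', Matrix.mul_one, hbb]
  have hginv : g⁻¹ = g' := Matrix.inv_eq_right_inv hgg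
  have hgK : ∀ i j, g i j ∈ K₁ := hmulK _ _ haK (entries_inv hKc₁ hbK hbb hbb')
  have hg'K : ∀ i j, g' i j ∈ K₁ := hmulK _ _ hbK (entries_inv hKc₁ haK haa haa')
  have hhK : ∀ i j, (c⁻¹ * g' * c) i j ∈ K₁ := hmulK _ _ (hmulK _ _ (entries_inv hKc₁ hcK hcc hcc') hg'K) hcK
  set h := c⁻¹ * g' * c with hh
  obtain ⟨x, hxP, hgen⟩ := exists_gen hK₁ hP₁ hirr hcP
  have hxx : x * x⁻¹ = 1 := mul_inv' hP hxP
  have hxx' : x⁻¹ * x = 1 := inv_mul' hP hxP
  -- the generic commutator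
  set u := g * x * h * x⁻¹ with hu
  have hu' : u * (x * c⁻¹ * g * c * x⁻¹ * g') = 1 := by
    calc g * x * (c⁻¹ * g' * c) * x⁻¹ * (x * c⁻¹ * g * c * x⁻¹ * g')
        = g * x * c⁻¹ * g' * c * (x⁻¹ * x) * c⁻¹ * g * c * x⁻¹ * g' := by simp only [Matrix.mul_assoc]
      _ = g * x * c⁻¹ * g' * (c * c⁻¹) * g * c * x⁻¹ * g' := by
        rw [hxx', Matrix.mul_one]; simp only [Matrix.mul_assoc]
      _ = g * x * c⁻¹ * (g' * g) * c * x⁻¹ * g' := by rw [hcc, Matrix.mul_one]; simp only [Matrix.mul_assoc]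
      _ = g * x * (c⁻¹ * c) * x⁻¹ * g' := by rw [hgg', Matrix.mul_one]; simp only [Matrix.mul_assoc]
      _ = g * (x * x⁻¹) * g' := by rw [hcc', Matrix.mul_one]; simp only [Matrix.mul_assoc]
      _ = 1 := by rw [hxx, Matrix.mul_one, hgg]
  have huu : u * u⁻¹ = 1 := by
    rw [Matrix.inv_eq_right_inv hu', hu']
  have huu' : u⁻¹ * u = 1 := Matrix.nonsing_inv_mul u ((Matrix.isUnit_iff_isUnit_det u).1 (IsUnit.of_mul_eq_one _ hu'))
  have hgcP : g * c ∈ P := hP.torsor a ha b hb c hcP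
  have hucP : u * c ∈ P := by
    have h1 := hP.torsor _ (hP.torsor _ (hP.torsor _ (hP.torsor a ha b hb x hxP) c hcP b hb) a ha c hcP) x hxP c hcP
    have h2 : a * b⁻¹ * x * c⁻¹ * b * a⁻¹ * c * x⁻¹ * c = u * c := by
      rw [hu, hh, hg, hg']
      simp only [Matrix.mul_assoc]
    rw [h2] at h1
    exact h1
  have hycc : (u * c) * (u * c)⁻¹ = 1 := mul_inv' hP hucP
  have hycc' : (u * c)⁻¹ * (u * c) = 1 := inv_mul' hP hucP
  have hyT : u * c ∈ T := by
    refine mem_of_spec hKc₁ hT₁ hc hcK hycc hycc' (fun D => ?_) (fun p hp h0 => ?_)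
    · obtain ⟨ξ, hξ⟩ : ∃ ξ, ξ = x.map D * x⁻¹ := ⟨_, rfl⟩
      have hξP : fl ξ ∈ LL P := by rw [hξ]; exact logder_mem hP₁ D hxP
      have hgT : fl (g * ξ * g⁻¹ - ξ) ∈ LL T := triv hKL hT hP hTP hc hl hξP hgcP
      have huT : fl (u * ξ * u⁻¹ - ξ) ∈ LL T := triv hKL hT hP hTP hc hl hξP hucP
      have hx1 : x.map D = ξ * x := by rw [hξ, Matrix.mul_assoc, hxx', Matrix.mul_one]
      have hx2 : (x⁻¹).map D = - (x⁻¹ * ξ) := by
        rw [der_inv D hxx hxx', hξ, Matrix.mul_assoc]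
      have h1 : (u * c).map D = g * ξ * g' * (u * c) - u * ξ * c :=
        id3 D (der_const D hgK) (der_const D hhK) (der_const D hcK) hgg' hx1 hx2
      have h2 : (u * c).map D * (u * c)⁻¹ = (g * ξ * g⁻¹ - ξ) - (u * ξ * u⁻¹ - ξ) := by
        rw [h1, Matrix.sub_mul, Matrix.mul_assoc (g * ξ * g'), hycc, Matrix.mul_one, Matrix.mul_inv_rev,
          id2 u c ξ c⁻¹ u⁻¹ hcc, hginv, sub_sub_sub_cancel_right]
      have h3 : fl ((g * ξ * g⁻¹ - ξ) - (u * ξ * u⁻¹ - ξ)) = fl (g * ξ * g⁻¹ - ξ) - fl (u * ξ * u⁻¹ - ξ) := rfl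
      rw [h2, h3]
      exact Submodule.sub_mem (LL T) hgT huT
    · have h1 := transfer hxx hgen hgK hhK hcK hp h0 hcP hcc
      have h2 : g * c * h * c⁻¹ * c = c := by
        calc g * c * (c⁻¹ * g' * c) * c⁻¹ * c = g * (c * c⁻¹) * g' * (c * c⁻¹) * c := by simp only [Matrix.mul_assoc]
          _ = c := by rw [hcc, Matrix.mul_one, Matrix.mul_one, hgg, Matrix.one_mul]
      rw [h2] at h1
      exact h1
  obtain ⟨I, hI1, hI2⟩ := hT.algebraic
  rw [hI2]
  refine ⟨?_, fun p hp => ?_⟩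
  · have h1 := hP.torsor _ (hP.torsor _ (hP.torsor _ (hP.torsor a ha b hb x' hx') c hcP b hb) a ha c hcP) x' hx' c hcP
    have h2 : a * b⁻¹ * x' * c⁻¹ * b * a⁻¹ * c * x'⁻¹ * c = g * x' * h * x'⁻¹ * c := by
      rw [hh, hg, hg']
      simp only [Matrix.mul_assoc]
    rw [h2] at h1
    exact hP.isUnit _ h1
  · exact transfer hxx hgen hgK hhK hcK (fun m => hKK (hI1 p hp m)) (((hI2 _).1 hyT).2 p hp) hx' (mul_inv' hP hx')

theorem inter_sub (hT : IsSubtorsor K T) (hP : IsSubtorsor K P) : IsSubtorsor K (T ∩ P) := by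
  refine ⟨fun x hx => hT.isUnit x hx.1, fun x hx y hy z hz => ⟨hT.torsor x hx.1 y hy.1 z hz.1,
    hP.torsor x hx.2 y hy.2 z hz.2⟩, ?_⟩
  obtain ⟨I, h1, h2⟩ := hT.algebraic
  obtain ⟨J, h3, h4⟩ := hP.algebraic
  refine ⟨I ∪ J, ?_, fun x => ?_⟩
  · rintro p (hp | hp)
    · exact h1 p hp
    · exact h3 p hp
  · rw [Set.mem_inter_iff, h2, h4]
    constructor
    · rintro ⟨⟨h5, h6⟩, -, h7⟩
      refine ⟨h5, ?_⟩
      rintro p (hp | hp)
      · exact h6 p hp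
      · exact h7 p hp
    · rintro ⟨h5, h6⟩
      exact ⟨⟨h5, fun p hp => h6 p (Or.inl hp)⟩, h5, fun p hp => h6 p (Or.inr hp)⟩

/-- the commutators of the group of `P` preserve `T` -/
theorem main (hK : (K : Set ℂ).Countable) (hKc : Cl K) (hT : IsSubtorsor K T) (hP : IsSubtorsor K P)
    (hirr : Irr P) (hc : c ∈ T) (hcP : c ∈ P) (hl : AdRel K P c) {x₁ x₂ x₃ x₄ t : Matrix N N ℂ} (h₁ : x₁ ∈ P)
    (h₂ : x₂ ∈ P) (h₃ : x₃ ∈ P) (h₄ : x₄ ∈ P) (ht : t ∈ T) :
    (x₁ * x₂⁻¹) * (x₃ * x₄⁻¹) * (x₁ * x₂⁻¹)⁻¹ * (x₃ * x₄⁻¹)⁻¹ * t ∈ T := by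
  have hcc : c * c⁻¹ = 1 := mul_inv' hT hc
  have hcc' : c⁻¹ * c = 1 := inv_mul' hT hc
  have h34 : x₃ * x₄⁻¹ * c ∈ P := hP.torsor _ h₃ _ h₄ _ hcP
  have h1 := (comm_mem hK hKc (inter_sub hT hP) hP hirr Set.inter_subset_right ⟨hc, hcP⟩ hl h₁ h₂ h34).1
  have h2 := hT.torsor _ h1 _ hc _ ht
  have u₂ := (Matrix.isUnit_iff_isUnit_det x₂).1 (hP.isUnit x₂ h₂)
  have u₄ := (Matrix.isUnit_iff_isUnit_det x₄).1 (hP.isUnit x₄ h₄)
  have h3 : x₁ * x₂⁻¹ * (x₃ * x₄⁻¹ * c) * (c⁻¹ * (x₂ * x₁⁻¹) * c) * (x₃ * x₄⁻¹ * c)⁻¹ * c * c⁻¹ * t =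
      (x₁ * x₂⁻¹) * (x₃ * x₄⁻¹) * (x₁ * x₂⁻¹)⁻¹ * (x₃ * x₄⁻¹)⁻¹ * t := by
    rw [Matrix.mul_inv_rev (x₃ * x₄⁻¹) c, Matrix.mul_inv_rev x₁, Matrix.nonsing_inv_nonsing_inv x₂ u₂]
    calc x₁ * x₂⁻¹ * (x₃ * x₄⁻¹ * c) * (c⁻¹ * (x₂ * x₁⁻¹) * c) * (c⁻¹ * (x₃ * x₄⁻¹)⁻¹) * c * c⁻¹ * t
        = x₁ * x₂⁻¹ * (x₃ * x₄⁻¹) * (c * c⁻¹) * (x₂ * x₁⁻¹) * (c * c⁻¹) * (x₃ * x₄⁻¹)⁻¹ * (c * c⁻¹) * t := by
          simp only [Matrix.mul_assoc]
      _ = _ := by rw [hcc]; simp only [Matrix.mul_one]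
  rw [h3] at h2
  exact h2

end Pool.Agent.X222.LR
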