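import Pool.Agent.X222.LR.Main

/-!
# The case when the centre consists of homotheties
-/

set_option autoImplicit false
set_option linter.unusedSectionVars false

open Matrix MvPolynomial

namespace Pool.Agent.X222.LR

open Pool.Agent.TH127.PT Pool.Agent.TH119.DR Pool.Agent.Y123.ST

variable {N : Type} [Fintype N] [DecidableEq N]

/-- the products of commutators of the group of `P` -/
def Cm (P : Set (Matrix N N ℂ)) : Submonoid (Matrix N N ℂ) :=
  Submonoid.closure {h | ∃ x₁ ∈ P, ∃ x₂ ∈ P, ∃ x₃ ∈ P, ∃ x₄ ∈ P,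
    h = (x₁ * x₂⁻¹) * (x₃ * x₄⁻¹) * (x₁ * x₂⁻¹)⁻¹ * (x₃ * x₄⁻¹)⁻¹}

variable {K : Subfield ℂ} {T P : Set (Matrix N N ℂ)} {c : Matrix N N ℂ}

theorem cm_mul (hK : (K : Set ℂ).Countable) (hKc : Cl K) (hT : IsSubtorsor K T) (hP : IsSubtorsor K P)
    (hirr : Irr P) (hc : c ∈ T) (hcP : c ∈ P) (hl : AdRel K P c) {h : Matrix N N ℂ} (hh : h ∈ Cm P) :
    ∀ t ∈ T, h * t ∈ T := by
  unfold Cm at hh
  induction hh using Submonoid.closure_induction with
  | mem h hh =>
    obtain ⟨x₁, h₁, x₂, h₂, x₃, h₃, x₄, h₄, rfl⟩ := hh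
    intro t ht
    exact main hK hKc hT hP hirr hc hcP hl h₁ h₂ h₃ h₄ ht
  | one =>
    intro t ht
    rw [Matrix.one_mul]
    exact ht
  | mul a b _ _ ha hb =>
    intro t ht
    rw [Matrix.mul_assoc]
    exact ha _ (hb _ ht)

theorem cm_det (hP : IsSubtorsor K P) {h : Matrix N N ℂ} (hh : h ∈ Cm P) : h.det = 1 := by
  unfold Cm at hh
  induction hh using Submonoid.closure_induction with
  | mem h hh =>
    obtain ⟨x₁, h₁, x₂, h₂, x₃, h₃, x₄, h₄, rfl⟩ := hh
    have hu : ∀ x ∈ P, IsUnit x.det := fun x hx => (Matrix.isUnit_iff_isUnit_det x).1 (hP.isUnit x hx)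
    have e₁ := (hu x₁ h₁).ne_zero
    have e₂ := (hu x₂ h₂).ne_zero
    have e₃ := (hu x₃ h₃).ne_zero
    have e₄ := (hu x₄ h₄).ne_zero
    simp only [Matrix.det_mul, Matrix.det_nonsing_inv, Ring.inverse_eq_inv']
    field_simp
  | one => exact Matrix.det_one
  | mul a b _ _ ha hb => rw [Matrix.det_mul, ha, hb, one_mul]

/-- the homotheties in the group of `T` -/
def Ho (hT : IsSubtorsor K T) (hc : c ∈ T) : Subgroup ℂˣ where
  carrier := {s | (s : ℂ) • c ∈ T}
  one_mem' := by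
    change ((1 : ℂˣ) : ℂ) • c ∈ T
    rw [Units.val_one, one_smul]
    exact hc
  mul_mem' := by
    intro s s' hs hs'
    change ((s * s' : ℂˣ) : ℂ) • c ∈ T
    have h1 := hT.torsor _ hs c hc _ hs'
    rw [Matrix.smul_mul, Matrix.mul_smul, Matrix.smul_mul, mul_inv' hT hc, Matrix.one_mul, smul_smul,
      mul_comm] at h1
    rw [Units.val_mul]
    exact h1
  inv_mem' := by
    intro s hs
    change ((s⁻¹ : ℂˣ) : ℂ) • c ∈ T
    have h1 := hT.torsor c hc _ hs c hc
    have h2 : ((s : ℂ) • c)⁻¹ = ((s⁻¹ : ℂˣ) : ℂ) • c⁻¹ := by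
      apply Matrix.inv_eq_right_inv
      rw [Matrix.smul_mul, Matrix.mul_smul, smul_smul, mul_inv' hT hc, Units.mul_inv, one_smul]
    rw [h2, Matrix.mul_smul, Matrix.smul_mul, mul_inv' hT hc, Matrix.one_mul] at h1
    exact h1

theorem mem_Ho (hT : IsSubtorsor K T) (hc : c ∈ T) {s : ℂˣ} : s ∈ Ho hT hc ↔ (s : ℂ) • c ∈ T := Iff.rfl

theorem all_smul (hT : IsSubtorsor K T) (hc : c ∈ T) (hinf : Infinite (Ho hT hc)) (s : ℂˣ) : (s : ℂ) • c ∈ T := by
  obtain ⟨I, hI1, hI2⟩ := hT.algebraic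
  rw [hI2]
  refine ⟨?_, fun p hp => ?_⟩
  · have h1 : IsUnit ((s : ℂ) • (1 : Matrix N N ℂ)) := by
      refine IsUnit.of_mul_eq_one (((s⁻¹ : ℂˣ) : ℂ) • (1 : Matrix N N ℂ)) ?_
      rw [Matrix.smul_mul, Matrix.mul_smul, smul_smul, Units.mul_inv, one_smul, Matrix.one_mul]
    have h2 := h1.mul (hT.isUnit c hc)
    rw [Matrix.smul_mul, Matrix.one_mul] at h2
    exact h2
  · set q : Polynomial ℂ := aeval (fun k => Polynomial.C ((0 : N × N → ℂ) k) + Polynomial.X * Polynomial.C (fl c k)) p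
      with hq
    have hqe : ∀ z : ℂ, q.eval z = eval (fl (z • c)) p := by
      intro z
      rw [hq, eval_aeval']
      congr 2
      funext b
      simp [fl]
    have hq0 : q = 0 := by
      apply Polynomial.eq_zero_of_infinite_isRoot
      refine Set.Infinite.mono (s := Set.range fun t : Ho hT hc => ((t : ℂˣ) : ℂ)) ?_ (Set.infinite_range_of_injective ?_)
      · rintro _ ⟨t, rfl⟩
        change q.eval _ = 0
        rw [hqe]
        exact ((hI2 _).1 t.2).2 p hp
      · intro a b hab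
        exact Subtype.ext (Units.ext hab)
    have h1 := hqe s
    rw [hq0, Polynomial.eval_zero] at h1
    exact h1.symm

/-- **The torsor form.** -/
theorem main_two (hK : (K : Set ℂ).Countable) (hKc : Cl K) (hT : IsSubtorsor K T) (hP : IsSubtorsor K P)
    (hirr : Irr P) (hc : c ∈ T) (hcP : c ∈ P) (hl : AdRel K P c) (hdet : c.det ∉ K)
    (hG : ∀ x ∈ P, ∀ y ∈ P, ∃ s : ℂ, ∃ h ∈ Cm P, x * y⁻¹ = s • h) : P ⊆ T := by
  have hcc : c * c⁻¹ = 1 := mul_inv' hT hc
  have hcc' : c⁻¹ * c = 1 := inv_mul' hT hc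
  have hdec : ∀ x ∈ P, ∃ s : ℂˣ, ∃ h ∈ Cm P, x = (s : ℂ) • (h * c) ∧ h * c ∈ T := by
    intro x hx
    obtain ⟨s, h, hh, h1⟩ := hG x hx c hcP
    have hxe : x = s • (h * c) := by
      rw [← Matrix.smul_mul, ← h1, Matrix.mul_assoc, hcc', Matrix.mul_one]
    by_cases hN : Nonempty N
    · have hs : s ≠ 0 := by
        rintro rfl
        rw [zero_smul] at hxe
        have h2 := (Matrix.isUnit_iff_isUnit_det x).1 (hP.isUnit x hx)
        rw [hxe, Matrix.det_zero] at h2
        exact not_isUnit_zero h2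
      exact ⟨Units.mk0 s hs, h, hh, hxe, cm_mul hK hKc hT hP hirr hc hcP hl hh c hc⟩
    · have hE : IsEmpty N := not_nonempty_iff.1 hN
      exact absurd (by rw [Matrix.det_isEmpty]; exact K.one_mem) hdet
  by_cases hinf : Infinite (Ho hT hc)
  · intro x hx
    obtain ⟨s, h, hh, hxe, hhc⟩ := hdec x hx
    have h1 := hT.torsor _ hhc c hc _ (all_smul hT hc hinf s)
    rw [Matrix.mul_smul, Matrix.mul_assoc h, hcc, Matrix.mul_one] at h1
    rw [hxe]
    exact h1
  · exfalso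
    have hfin : Finite (Ho hT hc) := not_infinite_iff_finite.1 hinf
    set m := Nat.card (Ho hT hc) with hm
    have hm0 : 0 < m := Nat.card_pos
    apply hdet
    apply hKc
    refine IsAlgebraic.of_pow hm0 ?_
    have hmem : c.det ^ m ∈ K := by
      by_contra hcon
      obtain ⟨σ, hσK, hσ⟩ := Pool.Agent.TH119.MX.exists_move hcon
      apply hσ
      have hσT : c.map σ ∈ T := aut_mem hT hσK hc
      obtain ⟨s, h, hh, hse, hhc⟩ := hdec _ (aut_mem hP hσK hcP)
      have h1 : (s : ℂ) • c ∈ T := by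
        have h2 := hT.torsor c hc _ hhc _ hσT
        rw [hse, Matrix.mul_smul, Matrix.mul_assoc, inv_mul' hT hhc, Matrix.mul_one] at h2
        exact h2
      have h3 : (⟨s, h1⟩ : Ho hT hc) ^ m = 1 := pow_card_eq_one'
      have h4 : s ^ m = 1 := congrArg Subtype.val h3
      have h5 : (s : ℂ) ^ m = 1 := by
        rw [← Units.val_pow_eq_pow_val, h4, Units.val_one]
      have h6 : σ c.det = (s : ℂ) ^ Fintype.card N * c.det := by
        have h7 := congrArg Matrix.det hse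
        rw [Matrix.det_smul, Matrix.det_mul, cm_det hP hh, one_mul] at h7
        rw [← h7]
        exact RingHom.map_det (σ : ℂ →+* ℂ) c
      rw [map_pow, h6, mul_pow, ← pow_mul, mul_comm (Fintype.card N), pow_mul, h5, one_pow, one_mul]
    exact isAlgebraic_algebraMap (⟨c.det ^ m, hmem⟩ : K)

end Pool.Agent.X222.LR
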